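import Mathlib
import Pool.Agent.Lib.MP_3a436c_lc.FSigma

set_option autoImplicit false

open Set MeasureTheory

namespace Pool.Agent.Results.MP_3a436c_lc.FSigma

/-- `(A, B)` is a Steinhaus pair: every image of `B` under a rotation-plus-translation
`w ↦ a w + b` (`|a| = 1`) of the plane meets `A` in exactly one point. -/
def IsSteinhausPair (A B : Set ℂ) : Prop :=
  ∀ a b : ℂ, ‖a‖ = 1 → ∃! z : ℂ, z ∈ A ∧ ∃ w ∈ B, a * w + b = z

/-- The trivial pairs: a single point together with the whole plane, in either order. -/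
def IsTrivialPair (A B : Set ℂ) : Prop :=
  ((∃ p : ℂ, A = {p}) ∧ B = univ) ∨ (A = univ ∧ ∃ p : ℂ, B = {p})

/-- Every Steinhaus pair consisting of two `F_σ` subsets of the plane is trivial. -/
theorem result (A B : Set ℂ) (K L : ℕ → Set ℂ) (hK : ∀ n, IsClosed (K n))
    (hL : ∀ n, IsClosed (L n)) (hA : A = ⋃ n, K n) (hB : B = ⋃ n, L n)
    (h : IsSteinhausPair A B) : IsTrivialPair A B := by
  have hP : Lib.MP_3a436c_lc.Pl A B := Lib.MP_3a436c_lc.pl_of_pair h
  have key : ∀ (S : Set ℂ) (M : ℕ → Set ℂ), (∀ n, IsClosed (M n)) → S = ⋃ n, M n →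
      IsSigmaCompact S := by
    intro S M hM hS
    rw [hS]
    refine isSigmaCompact_iUnion _ fun n => ?_
    exact isSigmaCompact_univ.of_isClosed_subset (hM n) (subset_univ _)
  rcases Lib.MP_3a436c_lc.trivial_of_sigmaCompact hP (key A K hK hA) (key B L hL hB) with h1 | h1
  · exact Or.inl h1
  · exact Or.inr ⟨h1.2, h1.1⟩

end Pool.Agent.Results.MP_3a436c_lc.FSigma
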