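import Mathlib
import Pool.Agent.Lib.MP_3a436c_lc.Cor

set_option autoImplicit false

open Set MeasureTheory

namespace Pool.Agent.Results.MP_3a436c_lc.NullMeagre

/-- `(A, B)` is a Steinhaus pair: every image of `B` under a rotation-plus-translation
`w ↦ a w + b` (`|a| = 1`) of the plane meets `A` in exactly one point. -/
def IsSteinhausPair (A B : Set ℂ) : Prop :=
  ∀ a b : ℂ, ‖a‖ = 1 → ∃! z : ℂ, z ∈ A ∧ ∃ w ∈ B, a * w + b = z

/-- The trivial pairs: a single point together with the whole plane, in either order. -/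
def IsTrivialPair (A B : Set ℂ) : Prop :=
  ((∃ p : ℂ, A = {p}) ∧ B = univ) ∨ (A = univ ∧ ∃ p : ℂ, B = {p})

/-- In every nontrivial Steinhaus pair of Borel subsets of the plane, each of the two sets is
uncountable, Lebesgue null and meagre, and arbitrarily small positive numbers fail to be distances
between its points. -/
theorem result (A B : Set ℂ) (hA : MeasurableSet A) (hB : MeasurableSet B)
    (h : IsSteinhausPair A B) (hnt : ¬ IsTrivialPair A B) :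
    (¬ A.Countable ∧ volume A = 0 ∧ IsMeagre A ∧
      ∀ ε : ℝ, 0 < ε → ∃ r : ℝ, 0 < r ∧ r < ε ∧ ∀ x ∈ A, ∀ y ∈ A, dist x y ≠ r) ∧
    (¬ B.Countable ∧ volume B = 0 ∧ IsMeagre B ∧
      ∀ ε : ℝ, 0 < ε → ∃ r : ℝ, 0 < r ∧ r < ε ∧ ∀ x ∈ B, ∀ y ∈ B, dist x y ≠ r) := by
  have hP : Lib.MP_3a436c_lc.Pl A B := Lib.MP_3a436c_lc.pl_of_pair h
  have key : ∀ S : Set ℂ, MeasurableSet S → ¬ S.Countable → ¬ Lib.MP_3a436c_lc.Small S →
      (¬ S.Countable ∧ volume S = 0 ∧ IsMeagre S ∧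
        ∀ ε : ℝ, 0 < ε → ∃ r : ℝ, 0 < r ∧ r < ε ∧ ∀ x ∈ S, ∀ y ∈ S, dist x y ≠ r) := by
    intro S hS hc hs
    obtain ⟨h1, h2, -⟩ := Lib.MP_3a436c_lc.null_meagre_of_not_small hS hs
    refine ⟨hc, h1, h2, ?_⟩
    intro ε hε
    by_contra hcon
    apply hs
    refine ⟨ε, hε, fun r hr0 hr => ?_⟩
    by_contra hcon2
    apply hcon
    refine ⟨r, hr0, hr, fun x hx y hy hxy => ?_⟩
    apply hcon2
    exact ⟨x, hx, y, hy, by rw [← dist_eq_norm]; exact hxy⟩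
  obtain ⟨⟨a1, a2⟩, b1, b2⟩ := Lib.MP_3a436c_lc.structure_of_nontrivial hP hA hB
    (fun hc => hnt (Or.inl hc)) (fun hc => hnt (Or.inr ⟨hc.2, hc.1⟩))
  exact ⟨key A hA a1 a2, key B hB b1 b2⟩

end Pool.Agent.Results.MP_3a436c_lc.NullMeagre
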